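import Pool.Agent.RSF.FIN

/-!
# MP_138ed6_an: the Riesz transform and the dyadic square function for `0 < s < 1`

For `0 < s < 1`, `s < d`, every admissible bump `ψ` and every locally finite measure `μ` on `ℝ^d` without atoms the
following are equivalent: the truncated Riesz transforms are uniformly bounded on `L²(μ)` (for all `f`, or only for `f` with
bounded support), the dyadic square function is bounded on `L²(μ)`, the Wolff energy condition holds.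
-/

namespace Pool.Agent.Results.MP_138ed6_an.BelowOne

open MeasureTheory
open scoped ENNReal NNReal

/-- The admissible bumps: smooth, radially non-increasing, `χ_{B(0,1/2)} ≤ ψ ≤ χ_{B(0,2)}`. -/
def Admissible {d : ℕ} (ψ : EuclideanSpace ℝ (Fin d) → ℝ) : Prop :=
  ContDiff ℝ ((⊤ : ℕ∞) : WithTop ℕ∞) ψ ∧
    (∀ x y : EuclideanSpace ℝ (Fin d), ‖x‖ ≤ ‖y‖ → ψ y ≤ ψ x) ∧
    ∀ x : EuclideanSpace ℝ (Fin d),
      Set.indicator (Metric.ball (0 : EuclideanSpace ℝ (Fin d)) (1 / 2)) (fun _ => (1 : ℝ)) x ≤ ψ x ∧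
        ψ x ≤ Set.indicator (Metric.ball (0 : EuclideanSpace ℝ (Fin d)) 2) (fun _ => (1 : ℝ)) x

/-- The `ε`-truncated `s`-Riesz transforms converge absolutely at every point for every `f ∈ L²(μ)` and are bounded
on `L²(μ)`, uniformly in `ε`. -/
def RieszBounded {d : ℕ} (s : ℝ) (μ : Measure (EuclideanSpace ℝ (Fin d))) : Prop :=
  (∀ ε : ℝ, 0 < ε → ∀ f : EuclideanSpace ℝ (Fin d) → ℝ, MemLp f 2 μ →
    ∀ x : EuclideanSpace ℝ (Fin d),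
      IntegrableOn (fun y => (f y * ‖x - y‖ ^ (-(s + 1))) • (x - y))
        {y : EuclideanSpace ℝ (Fin d) | ε < ‖x - y‖} μ) ∧
  ∃ C : ℝ≥0, ∀ ε : ℝ, 0 < ε → ∀ f : EuclideanSpace ℝ (Fin d) → ℝ, MemLp f 2 μ →
    ∫⁻ x, ‖∫ y in {y : EuclideanSpace ℝ (Fin d) | ε < ‖x - y‖},
        (f y * ‖x - y‖ ^ (-(s + 1))) • (x - y) ∂μ‖ₑ ^ 2 ∂μ
      ≤ (C : ℝ≥0∞) * ∫⁻ x, ‖f x‖ₑ ^ 2 ∂μ

/-- The same bound, required only for `f` vanishing outside a ball. -/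
def RieszBoundedTested {d : ℕ} (s : ℝ) (μ : Measure (EuclideanSpace ℝ (Fin d))) : Prop :=
  ∃ C : ℝ≥0, ∀ ε : ℝ, 0 < ε → ∀ f : EuclideanSpace ℝ (Fin d) → ℝ, MemLp f 2 μ →
    (∃ R : ℝ, ∀ y : EuclideanSpace ℝ (Fin d), R < ‖y‖ → f y = 0) →
      ∫⁻ x, ‖∫ y in {y : EuclideanSpace ℝ (Fin d) | ε < ‖x - y‖},
          (f y * ‖x - y‖ ^ (-(s + 1))) • (x - y) ∂μ‖ₑ ^ 2 ∂μ
        ≤ (C : ℝ≥0∞) * ∫⁻ x, ‖f x‖ₑ ^ 2 ∂μ

/-- The square function `(∑_j |R_j (f dμ)|²)^(1/2)` is bounded on `L²(μ)`. -/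
def SquareBounded {d : ℕ} (s : ℝ) (ψ : EuclideanSpace ℝ (Fin d) → ℝ)
    (μ : Measure (EuclideanSpace ℝ (Fin d))) : Prop :=
  ∃ C : ℝ≥0, ∀ f : EuclideanSpace ℝ (Fin d) → ℝ, MemLp f 2 μ →
    ∫⁻ x, ∑' j : ℤ, ‖∫ y,
        (f y * (ψ ((2 : ℝ) ^ j • (x - y)) - ψ ((2 : ℝ) ^ (j + 1) • (x - y)))
          * ‖x - y‖ ^ (-(s + 1))) • (x - y) ∂μ‖ₑ ^ 2 ∂μ
      ≤ (C : ℝ≥0∞) * ∫⁻ x, ‖f x‖ₑ ^ 2 ∂μ

/-- The Wolff energy condition, in the form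
`∫_A ∫_A ∫_A max(|x - y|, |x - z|)^(-2s) dμ dμ dμ ≤ C μ(A)` for all Borel sets `A`. -/
def WolffCondition {d : ℕ} (s : ℝ) (μ : Measure (EuclideanSpace ℝ (Fin d))) : Prop :=
  ∃ C : ℝ≥0, ∀ A : Set (EuclideanSpace ℝ (Fin d)), MeasurableSet A →
    ∫⁻ x in A, ∫⁻ y in A, ∫⁻ z in A,
        ENNReal.ofReal ((max ‖x - y‖ ‖x - z‖) ^ (-(2 * s))) ∂μ ∂μ ∂μ
      ≤ (C : ℝ≥0∞) * μ A

theorem result {d : ℕ} {s : ℝ} (hs0 : 0 < s) (hs1 : s < 1)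
    {ψ : EuclideanSpace ℝ (Fin d) → ℝ} (hψ : Admissible ψ)
    (μ : Measure (EuclideanSpace ℝ (Fin d))) [IsLocallyFiniteMeasure μ] [NullSingletonClass μ] :
    List.TFAE [RieszBounded s μ, RieszBoundedTested s μ, SquareBounded s ψ μ,
      WolffCondition s μ] :=
  Pool.Agent.RSF.equiv_all hs0 hs1 ⟨hψ.1, hψ.2.1, hψ.2.2⟩ μ

end Pool.Agent.Results.MP_138ed6_an.BelowOne
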